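import Mathlib

set_option autoImplicit false

namespace Pool.Agent.H.MP_3f3325_gt

open MvPolynomial

abbrev P4 := MvPolynomial (Fin 4) ℝ
abbrev O4 := Matrix.orthogonalGroup (Fin 4) ℝ

noncomputable def act (g : Matrix (Fin 4) (Fin 4) ℝ) : P4 →ₐ[ℝ] P4 :=
  aeval (fun i : Fin 4 => ∑ j : Fin 4, C (g i j) * X j)

noncomputable def lap : P4 →ₗ[ℝ] P4 :=
  ∑ i : Fin 4, (pderiv i).toLinearMap ∘ₗ (pderiv i).toLinearMap

lemma lap_apply (p : P4) : lap p = ∑ i : Fin 4, pderiv i (pderiv i p) := by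
  simp [lap, LinearMap.sum_apply]

lemma act_X (g : Matrix (Fin 4) (Fin 4) ℝ) (i : Fin 4) :
    act g (X i) = ∑ j : Fin 4, C (g i j) * X j := by simp [act]

lemma act_C (g : Matrix (Fin 4) (Fin 4) ℝ) (a : ℝ) : act g (C a) = C a := by simp [act]

lemma act_mul (g h : Matrix (Fin 4) (Fin 4) ℝ) (p : P4) : act (h * g) p = act g (act h p) := by
  have : act (h * g) = (act g).comp (act h) := by
    apply MvPolynomial.algHom_ext
    intro i
    simp only [AlgHom.comp_apply, act_X, map_sum, map_mul, act_C, Matrix.mul_apply,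
      Finset.mul_sum, Finset.sum_mul, mul_assoc]
    rw [Finset.sum_comm]
  rw [this]; rfl

lemma act_one (p : P4) : act 1 p = p := by
  have : act 1 = AlgHom.id ℝ P4 := by
    apply MvPolynomial.algHom_ext
    intro i
    simp [act_X, Matrix.one_apply, apply_ite C]
  rw [this]; rfl

lemma pderiv_act (g : Matrix (Fin 4) (Fin 4) ℝ) (j : Fin 4) (p : P4) :
    pderiv j (act g p) = ∑ i : Fin 4, C (g i j) * act g (pderiv i p) := by
  induction p using MvPolynomial.induction_on with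
  | C a => simp [act_C]
  | add p q hp hq => simp [hp, hq, mul_add, Finset.sum_add_distrib]
  | mul_X p i hp =>
    have h1 : pderiv j (act g (X i)) = C (g i j) := by
      rw [act_X]
      simp [pderiv_X, Pi.single_apply]
    rw [map_mul, pderiv_mul, hp, h1]
    simp only [pderiv_mul, map_add, map_mul, mul_add, Finset.sum_add_distrib, Finset.sum_mul,
      mul_assoc]
    congr 1
    simp [pderiv_X, Pi.single_apply, apply_ite (act g), mul_comm]

lemma lap_act (g : O4) (p : P4) : lap (act g.1 p) = act g.1 (lap p) := by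
  have hg : g.1 * g.1.transpose = 1 := (Matrix.mem_orthogonalGroup_iff (Fin 4) ℝ).1 g.2
  have h2 : ∀ i i' : Fin 4, ∑ j : Fin 4, (C (g.1 i j) * C (g.1 i' j) : P4) =
      if i = i' then 1 else 0 := by
    intro i i'
    have := congrFun (congrFun hg i) i'
    simp only [Matrix.mul_apply, Matrix.transpose_apply, Matrix.one_apply] at this
    simp only [← map_mul, ← map_sum, this]
    split_ifs <;> simp
  simp only [lap_apply, pderiv_act, map_sum, pderiv_C_mul, Finset.mul_sum]
  rw [Finset.sum_comm]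
  refine Finset.sum_congr rfl fun i _ => ?_
  rw [Finset.sum_comm]
  simp only [← mul_assoc, ← Finset.sum_mul, h2]
  simp

lemma coeff_lap (p : P4) (m : Fin 4 →₀ ℕ) :
    coeff m (lap p) = ∑ i : Fin 4, coeff (m + Finsupp.single i 2) p * ((m i + 2) * (m i + 1)) := by
  simp only [lap_apply, coeff_sum, coeff_pderiv]
  refine Finset.sum_congr rfl fun i _ => ?_
  rw [add_assoc, ← Finsupp.single_add]
  simp only [Finsupp.coe_add, Pi.add_apply, Finsupp.single_eq_same]
  push_cast
  ring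

lemma lap_X0_inj (p : P4) (h : lap (X 0 ^ 2 * p) = 0) : p = 0 := by
  have key : ∀ n : ℕ, ∀ m : Fin 4 →₀ ℕ, m 0 = n → coeff m p = 0 := by
    intro n
    induction n using Nat.strong_induction_on with
    | _ n ih =>
      intro m hm
      have h1 := congrArg (coeff m) h
      rw [coeff_lap, coeff_zero, Fin.sum_univ_succ] at h1
      have h2 : ∀ i : Fin 3, coeff (m + Finsupp.single i.succ 2) (X 0 ^ 2 * p : P4) = 0 := by
        intro i
        rw [X_pow_eq_monomial, coeff_monomial_mul']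
        split_ifs with hle
        · rw [ih (n - 2) ?_ _ ?_, mul_zero]
          · have := hle 0
            simp [Finsupp.single_apply, Fin.succ_ne_zero] at this
            omega
          · simp [Finsupp.single_apply, Fin.succ_ne_zero, hm]
        · rfl
      simp only [h2, zero_mul, Finset.sum_const_zero, add_zero] at h1
      rw [X_pow_eq_monomial, add_comm m, coeff_monomial_mul, one_mul] at h1
      rcases mul_eq_zero.1 h1 with h1 | h1
      · exact h1
      · exfalso
        have : (0:ℝ) < ((m 0 : ℝ) + 2) * ((m 0 : ℝ) + 1) := by positivity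
        linarith
  ext m
  simp [key _ m rfl]

lemma lap_hom {p : P4} {k : ℕ} (h : p.IsHomogeneous k) : (lap p).IsHomogeneous (k - 2) := by
  rw [lap_apply]
  apply IsHomogeneous.sum
  intro i _
  have := (h.pderiv (i := i)).pderiv (i := i)
  rwa [Nat.sub_sub] at this

lemma lap_small {p : P4} {k : ℕ} (h : p.IsHomogeneous k) (hk : k < 2) : lap p = 0 := by
  ext m
  rw [coeff_lap, coeff_zero]
  apply Finset.sum_eq_zero
  intro i _
  rw [h.coeff_eq_zero, zero_mul]
  simp only [map_add, Finsupp.degree_single]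
  omega

instance fin_hom (k : ℕ) : Module.Finite ℝ (homogeneousSubmodule (Fin 4) ℝ k) :=
  Module.Finite.iff_fg.2 (homogeneousSubmodule_fg _ _ k)

instance fin_hom' (k : ℕ) (I : Submodule ℝ P4) :
    Module.Finite ℝ ↥(homogeneousSubmodule (Fin 4) ℝ k ⊓ I) :=
  Submodule.finiteDimensional_of_le (inf_le_left)

lemma finrank_harm (I : Submodule ℝ P4) (h1 : ∀ p ∈ I, lap p ∈ I)
    (h2 : ∀ p ∈ I, X 0 ^ 2 * p ∈ I) (k : ℕ) :
    Module.finrank ℝ ↥(homogeneousSubmodule (Fin 4) ℝ (k + 2) ⊓ LinearMap.ker lap ⊓ I) +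
      Module.finrank ℝ ↥(homogeneousSubmodule (Fin 4) ℝ k ⊓ I) =
      Module.finrank ℝ ↥(homogeneousSubmodule (Fin 4) ℝ (k + 2) ⊓ I) := by
  let L : ↥(homogeneousSubmodule (Fin 4) ℝ (k + 2) ⊓ I) →ₗ[ℝ]
      ↥(homogeneousSubmodule (Fin 4) ℝ k ⊓ I) :=
    lap.restrict (fun p hp => ⟨by simpa using lap_hom hp.1, h1 p hp.2⟩)
  let J : ↥(homogeneousSubmodule (Fin 4) ℝ k ⊓ I) →ₗ[ℝ]
      ↥(homogeneousSubmodule (Fin 4) ℝ (k + 2) ⊓ I) :=
    (LinearMap.mulLeft ℝ (X 0 ^ 2 : P4)).restrict (fun p hp => ⟨by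
      have := ((isHomogeneous_X ℝ (0 : Fin 4)).pow 2).mul hp.1
      simpa [add_comm] using this, h2 p hp.2⟩)
  have hinj : Function.Injective (L ∘ₗ J) := by
    rw [← LinearMap.ker_eq_bot, eq_bot_iff]
    intro p hp
    have : lap (X 0 ^ 2 * p.1) = 0 := congrArg Subtype.val hp
    exact Subtype.ext (lap_X0_inj _ this)
  have hsurj : Function.Surjective (L ∘ₗ J) := LinearMap.injective_iff_surjective.1 hinj
  have hL : Function.Surjective L := Function.Surjective.of_comp (g := J) hsurj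
  have hr := LinearMap.finrank_range_add_finrank_ker L
  rw [LinearMap.range_eq_top.2 hL, finrank_top] at hr
  rw [← hr, add_comm]
  congr 1
  have : homogeneousSubmodule (Fin 4) ℝ (k + 2) ⊓ LinearMap.ker lap ⊓ I =
      (LinearMap.ker L).map (homogeneousSubmodule (Fin 4) ℝ (k + 2) ⊓ I).subtype := by
    ext p
    constructor
    · rintro ⟨⟨a, b⟩, c⟩
      exact ⟨⟨p, a, c⟩, Subtype.ext b, rfl⟩
    · rintro ⟨⟨q, a, c⟩, b, rfl⟩
      exact ⟨⟨a, congrArg Subtype.val b⟩, c⟩
  rw [this, Submodule.finrank_map_subtype_eq]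

lemma finrank_harm_eq (I I' : Submodule ℝ P4) (h1 : ∀ p ∈ I, lap p ∈ I)
    (h2 : ∀ p ∈ I, X 0 ^ 2 * p ∈ I) (h1' : ∀ p ∈ I', lap p ∈ I')
    (h2' : ∀ p ∈ I', X 0 ^ 2 * p ∈ I')
    (h : ∀ k, Module.finrank ℝ ↥(homogeneousSubmodule (Fin 4) ℝ k ⊓ I) =
      Module.finrank ℝ ↥(homogeneousSubmodule (Fin 4) ℝ k ⊓ I')) (k : ℕ) :
    Module.finrank ℝ ↥(homogeneousSubmodule (Fin 4) ℝ k ⊓ LinearMap.ker lap ⊓ I) =
    Module.finrank ℝ ↥(homogeneousSubmodule (Fin 4) ℝ k ⊓ LinearMap.ker lap ⊓ I') := by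
  by_cases hk : k < 2
  · have : homogeneousSubmodule (Fin 4) ℝ k ⊓ LinearMap.ker lap =
        homogeneousSubmodule (Fin 4) ℝ k :=
      inf_eq_left.2 (fun p hp => lap_small hp hk)
    rw [this]; exact h k
  · obtain ⟨k, rfl⟩ : ∃ j, k = j + 2 := ⟨k - 2, by omega⟩
    have a := finrank_harm I h1 h2 k
    have b := finrank_harm I' h1' h2' k
    have c := h k
    have d := h (k + 2)
    omega

end Pool.Agent.H.MP_3f3325_gt
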