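import Pool.Agent.H.MP_3f3325_gt.A

set_option autoImplicit false

namespace Pool.Agent.H.MP_3f3325_gt

open MvPolynomial

lemma coeff_act_diag (d : Fin 4 → ℝ) (p : P4) (m : Fin 4 →₀ ℕ) :
    coeff m (act (Matrix.diagonal d) p) = (∏ i, d i ^ m i) * coeff m p := by
  induction p using MvPolynomial.induction_on' with
  | add p q hp hq => simp [hp, hq, mul_add]
  | monomial n a =>
    have : act (Matrix.diagonal d) (monomial n a) = monomial n ((∏ i, d i ^ n i) * a) := by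
      have h1 : ∀ i : Fin 4, (∑ j : Fin 4, C (Matrix.diagonal d i j) * X j : P4) = C (d i) * X i := by
        intro i
        simp [Matrix.diagonal_apply, apply_ite C]
      simp only [act, h1, monomial_eq, Finsupp.prod_pow, map_mul, map_prod, map_pow, aeval_X,
        aeval_C, algebraMap_eq, mul_pow, Finset.prod_mul_distrib]
      ring
    rw [this, coeff_monomial, coeff_monomial]
    split_ifs with h
    · rw [h]
    · simp

def sw : Fin 4 → Fin 4 := ![0, 1, 3, 2]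

lemma sw_sw (i : Fin 4) : sw (sw i) = i := by revert i; decide

lemma sw_inj : Function.Injective sw := by decide

noncomputable def swm (m : Fin 4 →₀ ℕ) : Fin 4 →₀ ℕ := m.mapDomain sw

lemma swm_apply (m : Fin 4 →₀ ℕ) (i : Fin 4) : swm m i = m (sw i) := by
  have := Finsupp.mapDomain_apply sw_inj m (sw i)
  rwa [sw_sw] at this

lemma swm0 (m : Fin 4 →₀ ℕ) : swm m 0 = m 0 := swm_apply m 0
lemma swm1 (m : Fin 4 →₀ ℕ) : swm m 1 = m 1 := swm_apply m 1
lemma swm2 (m : Fin 4 →₀ ℕ) : swm m 2 = m 3 := swm_apply m 2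
lemma swm3 (m : Fin 4 →₀ ℕ) : swm m 3 = m 2 := swm_apply m 3

lemma swm_swm (m : Fin 4 →₀ ℕ) : swm (swm m) = m := by
  ext i; rw [swm_apply, swm_apply, sw_sw]

def mS : Matrix (Fin 4) (Fin 4) ℝ := !![1,0,0,0;0,1,0,0;0,0,0,1;0,0,1,0]
def mR : Matrix (Fin 4) (Fin 4) ℝ := !![1,0,0,0;0,1,0,0;0,0,0,-1;0,0,1,0]

lemma act_mS (p : P4) : act mS p = rename sw p := by
  have : act mS = rename sw := by
    apply MvPolynomial.algHom_ext
    intro i
    rw [act_X, rename_X]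
    fin_cases i <;> simp [Fin.sum_univ_four, mS, sw]
  rw [this]

lemma mR_eq : mR = Matrix.diagonal ![1, 1, -1, 1] * mS := by
  ext i j
  fin_cases i <;> fin_cases j <;> simp [mR, mS, Matrix.diagonal_mul]

lemma coeff_act_mR (p : P4) (m : Fin 4 →₀ ℕ) :
    coeff m (act mR p) = (-1) ^ (m 3) * coeff (swm m) p := by
  rw [mR_eq, act_mul, act_mS]
  have := coeff_rename_mapDomain sw sw_inj (act (Matrix.diagonal ![1, 1, -1, 1]) p) (swm m)
  have h2 : Finsupp.mapDomain sw (swm m) = m := swm_swm m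
  rw [h2] at this
  rw [this, coeff_act_diag]
  simp [Fin.prod_univ_four, swm2]

def d1 : Fin 4 → ℝ := ![-1, -1, 1, 1]
def d2 : Fin 4 → ℝ := ![-1, 1, -1, 1]
def d3 : Fin 4 → ℝ := ![-1, 1, 1, -1]

noncomputable def fixM (g : Matrix (Fin 4) (Fin 4) ℝ) : Submodule ℝ P4 :=
  LinearMap.ker ((act g).toLinearMap - LinearMap.id)

lemma mem_fixM (g : Matrix (Fin 4) (Fin 4) ℝ) (p : P4) : p ∈ fixM g ↔ act g p = p := by
  simp [fixM, sub_eq_zero]

lemma sign_aux (n : ℕ) (c : ℝ) : (-1) ^ n * c = c ↔ (c ≠ 0 → n % 2 = 0) := by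
  rcases Nat.even_or_odd n with h | h
  · rw [h.neg_one_pow]; simp [Nat.even_iff.1 h]
  · rw [h.neg_one_pow]
    have := Nat.odd_iff.1 h
    constructor
    · intro h1 h2; exact absurd (by linarith) h2
    · intro h1
      by_contra h2
      have : c ≠ 0 := by rintro rfl; simp at h2
      have := h1 this
      omega

lemma mem_d1 (p : P4) : p ∈ fixM (Matrix.diagonal d1) ↔
    ∀ m, coeff m p ≠ 0 → (m 0 + m 1) % 2 = 0 := by
  rw [mem_fixM, MvPolynomial.ext_iff]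
  refine forall_congr' fun m => ?_
  rw [coeff_act_diag, ← sign_aux]
  simp [Fin.prod_univ_four, d1, pow_add]

lemma mem_d2 (p : P4) : p ∈ fixM (Matrix.diagonal d2) ↔
    ∀ m, coeff m p ≠ 0 → (m 0 + m 2) % 2 = 0 := by
  rw [mem_fixM, MvPolynomial.ext_iff]
  refine forall_congr' fun m => ?_
  rw [coeff_act_diag, ← sign_aux]
  simp [Fin.prod_univ_four, d2, pow_add]

lemma mem_d3 (p : P4) : p ∈ fixM (Matrix.diagonal d3) ↔
    ∀ m, coeff m p ≠ 0 → (m 0 + m 3) % 2 = 0 := by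
  rw [mem_fixM, MvPolynomial.ext_iff]
  refine forall_congr' fun m => ?_
  rw [coeff_act_diag, ← sign_aux]
  simp [Fin.prod_univ_four, d3, pow_add]

lemma mem_R (p : P4) : p ∈ fixM mR ↔ ∀ m, (-1) ^ (m 3) * coeff (swm m) p = coeff m p := by
  rw [mem_fixM, MvPolynomial.ext_iff]
  simp only [coeff_act_mR]

lemma mem_hom (p : P4) (k : ℕ) : p ∈ homogeneousSubmodule (Fin 4) ℝ k ↔
    ∀ m, coeff m p ≠ 0 → m 0 + m 1 + m 2 + m 3 = k := by
  rw [mem_homogeneousSubmodule, IsHomogeneous, IsWeightedHomogeneous]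
  refine forall_congr' fun m => ?_
  have : Finsupp.weight (1 : Fin 4 → ℕ) m = m 0 + m 1 + m 2 + m 3 := by
    rw [← Fin.sum_univ_four (fun i => m i), ← Finsupp.degree_eq_sum, Finsupp.degree_eq_weight_one]
    rfl
  rw [this]

def S2 (k : ℕ) : Set (Fin 4 →₀ ℕ) :=
  {m | m 0 + m 1 + m 2 + m 3 = k ∧ (m 0 + m 1) % 2 = 0 ∧ (m 0 + m 2) % 2 = 0 ∧ (m 0 + m 3) % 2 = 0}

def S1 (k : ℕ) : Set (Fin 4 →₀ ℕ) :=
  {m | m 0 + m 1 + m 2 + m 3 = k ∧ (m 0 + m 1) % 2 = 0 ∧ (m 2 + m 3) % 2 = 0 ∧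
    (m 2 < m 3 ∨ (m 2 = m 3 ∧ m 2 % 2 = 0))}

noncomputable def mk4 (a b c d : ℕ) : Fin 4 →₀ ℕ := Finsupp.equivFunOnFinite.symm ![a, b, c, d]

@[simp] lemma mk4_0 (a b c d : ℕ) : mk4 a b c d 0 = a := rfl
@[simp] lemma mk4_1 (a b c d : ℕ) : mk4 a b c d 1 = b := rfl
@[simp] lemma mk4_2 (a b c d : ℕ) : mk4 a b c d 2 = c := rfl
@[simp] lemma mk4_3 (a b c d : ℕ) : mk4 a b c d 3 = d := rfl

lemma ext4 {m n : Fin 4 →₀ ℕ} (h0 : m 0 = n 0) (h1 : m 1 = n 1) (h2 : m 2 = n 2)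
    (h3 : m 3 = n 3) : m = n := by
  ext i; fin_cases i <;> assumption

noncomputable def eqv (k : ℕ) : S1 k ≃ S2 k where
  toFun m := ⟨mk4 (2 * (m.1 0 / 2) + m.1 2 % 2) (2 * (m.1 1 / 2) + m.1 2 % 2)
      (4 * (m.1 2 / 2) + 2 * (m.1 0 % 2) + m.1 2 % 2) (m.1 3 - m.1 2 - m.1 2 % 2), by
    obtain ⟨m, h0, h1, h2, h3⟩ := m
    simp only [S2, Set.mem_ofPred_eq, mk4_0, mk4_1, mk4_2, mk4_3]
    omega⟩
  invFun n := ⟨mk4 (2 * (n.1 0 / 2) + (n.1 2 / 2) % 2) (2 * (n.1 1 / 2) + (n.1 2 / 2) % 2)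
      (2 * (n.1 2 / 4) + n.1 0 % 2) (2 * (n.1 2 / 4) + n.1 3 + 2 * (n.1 0 % 2)), by
    obtain ⟨m, h0, h1, h2, h3⟩ := n
    simp only [S1, Set.mem_ofPred_eq, mk4_0, mk4_1, mk4_2, mk4_3]
    omega⟩
  left_inv m := by
    obtain ⟨m, h0, h1, h2, h3⟩ := m
    apply Subtype.ext
    apply ext4 <;> simp only [mk4_0, mk4_1, mk4_2, mk4_3] <;> omega
  right_inv m := by
    obtain ⟨m, h0, h1, h2, h3⟩ := m
    apply Subtype.ext
    apply ext4 <;> simp only [mk4_0, mk4_1, mk4_2, mk4_3] <;> omega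

noncomputable def I2 : Submodule ℝ P4 :=
  fixM (Matrix.diagonal d1) ⊓ fixM (Matrix.diagonal d2) ⊓ fixM (Matrix.diagonal d3)

noncomputable def I1 : Submodule ℝ P4 := fixM (Matrix.diagonal d1) ⊓ fixM mR ⊓ fixM 1

lemma I2_eq (k : ℕ) : homogeneousSubmodule (Fin 4) ℝ k ⊓ I2 = restrictSupport ℝ (S2 k) := by
  ext p
  simp only [I2, Submodule.mem_inf, mem_d1, mem_d2, mem_d3, mem_hom, mem_restrictSupport_iff,
    Set.subset_def, Finset.mem_coe, mem_support_iff, S2, Set.mem_ofPred_eq]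
  constructor
  · rintro ⟨a, ⟨b, c⟩, d⟩ m hm
    exact ⟨a m hm, b m hm, c m hm, d m hm⟩
  · intro h
    exact ⟨fun m hm => (h m hm).1, ⟨fun m hm => (h m hm).2.1, fun m hm => (h m hm).2.2.1⟩,
      fun m hm => (h m hm).2.2.2⟩

lemma mem_rs (S : Set (Fin 4 →₀ ℕ)) (p : P4) :
    p ∈ restrictSupport ℝ S ↔ ∀ m, coeff m p ≠ 0 → m ∈ S := by
  simp only [mem_restrictSupport_iff, Set.subset_def, Finset.mem_coe, mem_support_iff]

lemma neg_one_pow_mod (a b : ℕ) (h : (a + b) % 2 = 0) : ((-1 : ℝ)) ^ a * (-1) ^ b = 1 := by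
  rw [← pow_add]; exact (Nat.even_iff.2 h).neg_one_pow

noncomputable def rho (k : ℕ) :
    ↥(restrictSupport ℝ (S1 k)) →ₗ[ℝ] ↥(homogeneousSubmodule (Fin 4) ℝ k ⊓ I1) :=
  (LinearMap.id + (act mR).toLinearMap).restrict (fun p hp => by
    rw [mem_rs] at hp
    have hc : ∀ m, coeff m ((LinearMap.id + (act mR).toLinearMap : P4 →ₗ[ℝ] P4) p) =
        coeff m p + (-1) ^ (m 3) * coeff (swm m) p := by
      intro m; simp [coeff_act_mR]
    have hs : ∀ m, coeff m ((LinearMap.id + (act mR).toLinearMap : P4 →ₗ[ℝ] P4) p) ≠ 0 →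
        m ∈ S1 k ∨ swm m ∈ S1 k := by
      intro m hm
      by_contra hcon
      push Not at hcon
      apply hm
      rw [hc, of_not_not (mt (hp m) hcon.1), of_not_not (mt (hp _) hcon.2)]
      simp
    refine ⟨?_, ⟨?_, ?_⟩, ?_⟩
    · refine (mem_hom _ _).2 fun m hm => ?_
      rcases hs m hm with h | h
      · exact h.1
      · have := h.1
        rw [swm0, swm1, swm2, swm3] at this
        omega
    · refine (mem_d1 _).2 fun m hm => ?_
      rcases hs m hm with h | h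
      · exact h.2.1
      · have := h.2.1
        rwa [swm0, swm1] at this
    · refine (mem_R _).2 fun m => ?_
      rw [hc, hc, swm_swm, swm3]
      by_cases h : coeff m p = 0
      · rw [h]; ring
      · have := neg_one_pow_mod (m 3) (m 2) (by have := (hp m h).2.2.1; omega)
        linear_combination (coeff m p) * this
    · exact (mem_fixM _ _).2 (act_one _))

lemma rho_coeff (k : ℕ) (p : ↥(restrictSupport ℝ (S1 k))) (m : Fin 4 →₀ ℕ) :
    coeff m (rho k p).1 = coeff m p.1 + (-1) ^ (m 3) * coeff (swm m) p.1 := by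
  simp [rho, LinearMap.restrict_apply, coeff_act_mR]

lemma rho_inj (k : ℕ) : Function.Injective (rho k) := by
  rw [← LinearMap.ker_eq_bot, eq_bot_iff]
  intro p hp
  apply Subtype.ext
  have hp' := (mem_rs _ _).1 p.2
  ext m
  by_contra hm
  have hm' : coeff m p.1 ≠ 0 := by simpa using hm
  have h1 := rho_coeff k p m
  rw [LinearMap.mem_ker.1 hp] at h1
  simp only [ZeroMemClass.coe_zero, coeff_zero] at h1
  obtain ⟨a, b, c, d | ⟨d, e⟩⟩ := hp' m hm'
  · have : coeff (swm m) p.1 = 0 := by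
      by_contra h
      have := (hp' _ h).2.2.2
      rw [swm2, swm3] at this
      omega
    rw [this] at h1
    exact hm' (by linarith)
  · have h2 : swm m = m := ext4 (swm0 m) (swm1 m) (by rw [swm2, d]) (by rw [swm3, d])
    rw [h2, (Nat.even_iff.2 (d ▸ e)).neg_one_pow] at h1
    exact hm' (by linarith)

noncomputable def tau (k : ℕ) : ↥(homogeneousSubmodule (Fin 4) ℝ k ⊓ I1) →ₗ[ℝ] (S1 k → ℝ) :=
  LinearMap.pi (fun m => lcoeff ℝ m.1 ∘ₗ (homogeneousSubmodule (Fin 4) ℝ k ⊓ I1).subtype)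

lemma tau_inj (k : ℕ) : Function.Injective (tau k) := by
  rw [← LinearMap.ker_eq_bot, eq_bot_iff]
  intro p hp
  apply Subtype.ext
  obtain ⟨p, a, ⟨b, c⟩, c'⟩ := p
  have a := (mem_hom _ _).1 a
  have b := (mem_d1 _).1 b
  have c := (mem_R _).1 c
  have hz : ∀ m ∈ S1 k, coeff m p = 0 := fun m hm => congrFun (LinearMap.mem_ker.1 hp) ⟨m, hm⟩
  ext m
  by_contra hm
  have hm' : coeff m p ≠ 0 := by simpa using hm
  have hs : coeff (swm m) p ≠ 0 := by
    intro h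
    have := c m
    rw [h] at this
    exact hm' (by linarith)
  have hpar : (m 2 + m 3) % 2 = 0 := by
    have h1 := c m
    have h2 := c (swm m)
    rw [swm_swm, swm3] at h2
    rw [← h2, ← mul_assoc, ← pow_add, sign_aux] at h1
    have := h1 hm'
    omega
  have a1 := a m hm'
  have b1 := b m hm'
  rcases lt_trichotomy (m 2) (m 3) with h | h | h
  · exact hm' (hz m ⟨a1, b1, hpar, Or.inl h⟩)
  · have h2 : swm m = m := ext4 (swm0 m) (swm1 m) (by rw [swm2, h]) (by rw [swm3, h])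
    have h1 := c m
    rw [h2, sign_aux] at h1
    exact hm' (hz m ⟨a1, b1, hpar, Or.inr ⟨h, h ▸ h1 hm'⟩⟩)
  · refine hs (hz _ ⟨?_, ?_, ?_, Or.inl ?_⟩) <;> simp only [swm0, swm1, swm2, swm3] <;> omega

lemma S1_finite (k : ℕ) : (S1 k).Finite := by
  refine (Finsupp.finite_of_degree_le (σ := Fin 4) k).subset ?_
  intro m hm
  simp only [Set.mem_ofPred_eq, Finsupp.degree_eq_sum, Fin.sum_univ_four]
  exact hm.1.le

lemma dims (k : ℕ) : Module.finrank ℝ ↥(homogeneousSubmodule (Fin 4) ℝ k ⊓ I1) =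
    Module.finrank ℝ ↥(homogeneousSubmodule (Fin 4) ℝ k ⊓ I2) := by
  have : Finite (S1 k) := S1_finite k
  have : Fintype (S1 k) := Fintype.ofFinite _
  have : Fintype (S2 k) := Fintype.ofEquiv _ (eqv k)
  rw [I2_eq, Module.finrank_eq_card_basis (basisRestrictSupport ℝ (S2 k)),
    ← Fintype.card_congr (eqv k)]
  apply le_antisymm
  · have := LinearMap.finrank_le_finrank_of_injective (tau_inj k)
    rwa [Module.finrank_fintype_fun_eq_card] at this
  · have := LinearMap.finrank_le_finrank_of_injective (rho_inj k)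
    rwa [Module.finrank_eq_card_basis (basisRestrictSupport ℝ (S1 k))] at this

def grp (a b c : O4) (hab : Commute a b) (hac : Commute a c) (hbc : Commute b c)
    (ha : a ^ 4 = 1) (hb : b ^ 4 = 1) (hc : c ^ 4 = 1) : Subgroup O4 where
  carrier := {g | ∃ i j k : ℕ, g = a ^ i * b ^ j * c ^ k}
  one_mem' := ⟨0, 0, 0, by simp⟩
  mul_mem' := by
    rintro _ _ ⟨i, j, k, rfl⟩ ⟨i', j', k', rfl⟩
    refine ⟨i + i', j + j', k + k', ?_⟩
    have h1 : c ^ k * (a ^ i' * b ^ j') = (a ^ i' * b ^ j') * c ^ k :=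
      (((hac.pow_pow i' k).mul_left (hbc.pow_pow j' k)).eq).symm
    have h2 : b ^ j * a ^ i' = a ^ i' * b ^ j := ((hab.pow_pow i' j).eq).symm
    calc a ^ i * b ^ j * c ^ k * (a ^ i' * b ^ j' * c ^ k')
        = a ^ i * b ^ j * (c ^ k * (a ^ i' * b ^ j')) * c ^ k' := by simp only [mul_assoc]
      _ = a ^ i * (b ^ j * a ^ i') * b ^ j' * c ^ k * c ^ k' := by rw [h1]; simp only [mul_assoc]
      _ = _ := by rw [h2]; simp only [pow_add, mul_assoc]
  inv_mem' := by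
    rintro _ ⟨i, j, k, rfl⟩
    refine ⟨3 * i, 3 * j, 3 * k, ?_⟩
    have e : ∀ (x : O4) (n : ℕ), x ^ 4 = 1 → (x ^ n)⁻¹ = x ^ (3 * n) := by
      intro x n hx
      rw [inv_eq_iff_mul_eq_one, ← pow_add, show n + 3 * n = 4 * n by ring, pow_mul, hx, one_pow]
    rw [mul_inv_rev, mul_inv_rev, e a i ha, e b j hb, e c k hc, (hab.pow_pow _ _).eq,
      (((hbc.pow_pow (3 * j) (3 * k)).mul_left (hac.pow_pow (3 * i) (3 * k))).eq)]

lemma grp_finite (a b c : O4) (hab : Commute a b) (hac : Commute a c) (hbc : Commute b c)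
    (ha : a ^ 4 = 1) (hb : b ^ 4 = 1) (hc : c ^ 4 = 1) :
    Finite (grp a b c hab hac hbc ha hb hc) := by
  have : (grp a b c hab hac hbc ha hb hc : Set O4).Finite := by
    refine (Set.finite_range
      (fun x : Fin 4 × Fin 4 × Fin 4 => a ^ x.1.1 * b ^ x.2.1.1 * c ^ x.2.2.1)).subset ?_
    rintro _ ⟨i, j, k, rfl⟩
    refine ⟨(⟨i % 4, by omega⟩, ⟨j % 4, by omega⟩, ⟨k % 4, by omega⟩), ?_⟩
    simp only
    rw [← pow_eq_pow_mod i ha, ← pow_eq_pow_mod j hb, ← pow_eq_pow_mod k hc]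
  exact this

lemma fix_grp (a b c : O4) (hab : Commute a b) (hac : Commute a c) (hbc : Commute b c)
    (ha : a ^ 4 = 1) (hb : b ^ 4 = 1) (hc : c ^ 4 = 1) :
    (⨅ g ∈ grp a b c hab hac hbc ha hb hc, fixM g.1) = fixM a.1 ⊓ fixM b.1 ⊓ fixM c.1 := by
  ext p
  simp only [Submodule.mem_iInf, Submodule.mem_inf, mem_fixM]
  constructor
  · intro h
    exact ⟨⟨h a ⟨1, 0, 0, by simp⟩, h b ⟨0, 1, 0, by simp⟩⟩, h c ⟨0, 0, 1, by simp⟩⟩
  · rintro ⟨⟨h1, h2⟩, h3⟩ _ ⟨i, j, k, rfl⟩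
    have e : ∀ (x : O4) (n : ℕ), act x.1 p = p → act (x ^ n).1 p = p := by
      intro x n hx
      induction n with
      | zero => simp [act_one]
      | succ n ih => rw [pow_succ, Submonoid.coe_mul, act_mul, ih, hx]
    rw [Submonoid.coe_mul, Submonoid.coe_mul, act_mul, act_mul, e a i h1, e b j h2, e c k h3]

lemma lap_fix (g : O4) (p : P4) (h : p ∈ fixM g.1) : lap p ∈ fixM g.1 := by
  rw [mem_fixM] at *
  rw [← lap_act, h]

lemma X0_fix (g : Matrix (Fin 4) (Fin 4) ℝ) (hg : act g (X 0) = X 0 ∨ act g (X 0) = - X 0)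
    (p : P4) (h : p ∈ fixM g) : X 0 ^ 2 * p ∈ fixM g := by
  rw [mem_fixM] at *
  rw [map_mul, map_pow, h]
  rcases hg with hg | hg <;> rw [hg]
  ring

lemma diag_mem (d : Fin 4 → ℝ) (h : ∀ i, d i * d i = 1) : Matrix.diagonal d ∈ O4 := by
  rw [Matrix.mem_orthogonalGroup_iff, Matrix.diagonal_transpose, Matrix.diagonal_mul_diagonal]
  simp [h]

def g1 : O4 := ⟨Matrix.diagonal d1, diag_mem _ (by intro i; fin_cases i <;> simp [d1])⟩
def g2 : O4 := ⟨Matrix.diagonal d2, diag_mem _ (by intro i; fin_cases i <;> simp [d2])⟩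
def g3 : O4 := ⟨Matrix.diagonal d3, diag_mem _ (by intro i; fin_cases i <;> simp [d3])⟩
def gR : O4 := ⟨mR, by
  rw [Matrix.mem_orthogonalGroup_iff]
  ext i j
  fin_cases i <;> fin_cases j <;> simp [mR, Matrix.mul_apply, Fin.sum_univ_four]⟩

lemma g1_sq : g1 ^ 2 = 1 := by
  apply Subtype.ext
  rw [pow_two, Submonoid.coe_mul]
  ext i j
  fin_cases i <;> fin_cases j <;> simp [g1, d1]

lemma g2_sq : g2 ^ 2 = 1 := by
  apply Subtype.ext
  rw [pow_two, Submonoid.coe_mul]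
  ext i j
  fin_cases i <;> fin_cases j <;> simp [g2, d2]

lemma g3_sq : g3 ^ 2 = 1 := by
  apply Subtype.ext
  rw [pow_two, Submonoid.coe_mul]
  ext i j
  fin_cases i <;> fin_cases j <;> simp [g3, d3]

lemma four_of_sq {x : O4} (h : x ^ 2 = 1) : x ^ 4 = 1 := by
  have := pow_mul x 2 2
  rwa [h, one_pow] at this

lemma gR_sq : (gR ^ 2).1 = Matrix.diagonal ![1, 1, -1, -1] := by
  rw [pow_two, Submonoid.coe_mul]
  ext i j
  fin_cases i <;> fin_cases j <;> simp [gR, mR, Matrix.mul_apply, Fin.sum_univ_four]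

lemma gR_four : gR ^ 4 = 1 := by
  apply Subtype.ext
  rw [show gR ^ 4 = gR ^ 2 * gR ^ 2 from pow_add gR 2 2, Submonoid.coe_mul, gR_sq]
  ext i j
  fin_cases i <;> fin_cases j <;> simp

lemma gR_sq_ne : gR ^ 2 ≠ 1 := by
  intro h
  have := gR_sq
  rw [h] at this
  have := congrFun (congrFun this 2) 2
  simp at this
  linarith

lemma c12 : Commute g1 g2 := by
  apply Subtype.ext
  simp [g1, g2, mul_comm]

lemma c13 : Commute g1 g3 := by
  apply Subtype.ext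
  simp [g1, g3, mul_comm]

lemma c23 : Commute g2 g3 := by
  apply Subtype.ext
  simp [g2, g3, mul_comm]

lemma c1R : Commute g1 gR := by
  apply Subtype.ext
  rw [Submonoid.coe_mul, Submonoid.coe_mul]
  ext i j
  fin_cases i <;> fin_cases j <;> simp [g1, gR, mR, d1]

def G1 : Subgroup O4 :=
  grp g1 gR 1 c1R (Commute.one_right _) (Commute.one_right _) (four_of_sq g1_sq) gR_four
    (one_pow _)

def G2 : Subgroup O4 :=
  grp g1 g2 g3 c12 c13 c23 (four_of_sq g1_sq) (four_of_sq g2_sq) (four_of_sq g3_sq)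

lemma G2_sq (g : O4) (hg : g ∈ G2) : g ^ 2 = 1 := by
  obtain ⟨i, j, k, rfl⟩ := hg
  rw [((c13.pow_pow i k).mul_left (c23.pow_pow j k)).mul_pow, (c12.pow_pow i j).mul_pow,
    ← pow_mul, ← pow_mul, ← pow_mul, mul_comm i, mul_comm j, mul_comm k, pow_mul, pow_mul,
    pow_mul, g1_sq, g2_sq, g3_sq]
  simp

lemma not_conj : ¬ ∃ h : O4, ∀ g, g ∈ G1 ↔ h * g * h⁻¹ ∈ G2 := by
  rintro ⟨h, hh⟩
  have := G2_sq _ ((hh gR).1 ⟨0, 1, 0, by simp⟩)
  rw [conj_pow] at this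
  apply gR_sq_ne
  simpa [mul_inv_eq_one] using this

lemma fix_G1 : (⨅ g ∈ G1, fixM g.1) = I1 := fix_grp ..
lemma fix_G2 : (⨅ g ∈ G2, fixM g.1) = I2 := fix_grp ..

lemma main (k : ℕ) :
    Module.finrank ℝ ↥(homogeneousSubmodule (Fin 4) ℝ k ⊓ LinearMap.ker lap ⊓ ⨅ g ∈ G1, fixM g.1) =
    Module.finrank ℝ ↥(homogeneousSubmodule (Fin 4) ℝ k ⊓ LinearMap.ker lap ⊓ ⨅ g ∈ G2, fixM g.1) := by
  rw [fix_G1, fix_G2]
  apply finrank_harm_eq _ _ _ _ _ _ dims
  · rintro p ⟨⟨a, b⟩, c⟩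
    exact ⟨⟨lap_fix g1 p a, lap_fix gR p b⟩, lap_fix 1 p c⟩
  · rintro p ⟨⟨a, b⟩, c⟩
    refine ⟨⟨X0_fix _ ?_ p a, X0_fix _ ?_ p b⟩, X0_fix _ ?_ p c⟩
    · right; simp [act_X, Fin.sum_univ_four, d1]
    · left; simp [act_X, Fin.sum_univ_four, mR]
    · left; exact act_one _
  · rintro p ⟨⟨a, b⟩, c⟩
    exact ⟨⟨lap_fix g1 p a, lap_fix g2 p b⟩, lap_fix g3 p c⟩
  · rintro p ⟨⟨a, b⟩, c⟩
    refine ⟨⟨X0_fix _ ?_ p a, X0_fix _ ?_ p b⟩, X0_fix _ ?_ p c⟩
    · right; simp [act_X, Fin.sum_univ_four, d1]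
    · right; simp [act_X, Fin.sum_univ_four, d2]
    · right; simp [act_X, Fin.sum_univ_four, d3]

end Pool.Agent.H.MP_3f3325_gt
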